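import Pool.Agent.H482R3.EA.Stm

/-! (LIFT) universal property of even Artin groups (helper303) -/

set_option autoImplicit false

namespace Pool.Agent.H482R3.EA

theorem t_LIFT : S_LIFT := by
  intro S G _ c f hf
  have hrel : ∀ r ∈ rels c, FreeGroup.lift f r = 1 := by
    rintro r ⟨s, t, hst, hc, rfl⟩
    simp only [map_mul, map_pow, map_inv, FreeGroup.lift_apply_of]
    rw [hf s t hst hc, mul_inv_cancel]
  have hgen : ∀ s, PresentedGroup.toGroup hrel (gen c s) = f s := fun s =>
    PresentedGroup.toGroup.of hrel
  refine ⟨PresentedGroup.toGroup hrel, hgen, ?_⟩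
  intro u
  induction u with
  | nil => simp [ev]
  | cons a u ih =>
    have h1 : ∀ (H : Type) (_ : Group H) (g : S → H), ev g (a :: u) =
        (if a.2 then g a.1 else (g a.1)⁻¹) * ev g u := by
      intro H _ g
      simp [ev]
    rw [h1, h1, map_mul, ih]
    congr 1
    split_ifs
    · exact hgen _
    · rw [map_inv, hgen]

end Pool.Agent.H482R3.EA
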